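import Pool.Agent.X115.HS.Fin
import Pool.Agent.X115.HS.Green
import Pool.Agent.X172.HS.BD
import Pool.Agent.X193.HS.Expn
import Pool.Agent.X186.HS.LAPG
import Pool.Agent.X283.HS.Dec
import Pool.Agent.X200.HS.REG
import Pool.Agent.X262.HS.HOL
import Pool.Agent.X28.HS.INT
import Pool.Agent.X235.HS.LIM1
import Pool.Agent.X59.HS.ODE
import Pool.Agent.X4.HS.PROD
import Pool.Agent.X274.HS.Uni
import Pool.Agent.X327.HS.ZA
import Pool.Agent.X211.HSZ.ZV
import Pool.Agent.X31.HS.LIM2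
import Pool.Agent.X48.HS.Cut
import Pool.Agent.X115.HS.Ibp

/-!
# Uniqueness for `-Δ u = u - 1` in a half-space, in every dimension

Let `N = n + 1` and let `u` be a `C²` function on the closed half-space `ℝⁿ × [0, ∞)` with
`-Δ u = u - 1` in the open half-space, `u = 0` on the boundary, and, for every `M > 0`,
`0 ≤ u ≤ C(M)` on `ℝⁿ × [0, M]`. Then `u(x', x_N) = 1 - cos x_N`.

Proof. Put `v = u - (1 - cos t)`, `a(x) = ∂_t u(x, 0) ≥ 0`. For the heat kernels `p_z` with complex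
time `z` let `V(z, t) = ∫ v(x, t) p_z(x - x0) dx` and `A(z) = ∫ a(x) p_z(x - x0) dx`. Then
`V(z, t) = A(z) sin t - ∫_0^t sin (t - τ) ∂_z V(z, τ) dτ`. At `t = 2π` the left side is
nonnegative for real `z = s` (as `u ≥ 0`), and iterating the formula and using Cauchy's estimates
(with `|A(z)| ≤ 3^n A(9s/2)` for `|z - s| ≤ s/2`, since `a ≥ 0`) gives
`0 ≤ π A'(s) + O(s^(-2) A(9s/2)) + O(s^(-J-1))` for every `J`. From `v ≥ cos t - 1` near `t = 2π`
one gets `A(s) → 0`, and so `A(s) = O(s^(-J))` for every `J`. For `J > n/2` this means that the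
integral of `a` is `0`, so `a = 0`. Then `V = 0` by iterating the formula once more.

Joint work: parts by helpers 4, 28, 31, 48, 59, 115, 172, 186, 193, 200, 211, 235, 262, 274, 283,
327 (and second versions of parts by 138, 197, 268).
-/

set_option autoImplicit false

namespace Pool.Agent.Results.MP_e4c1d4_an.HalfSpaceUniqueness

open Pool.Agent.X115.HS Set

/-- For every `n` (dimension `N = n + 1`) the only function which is `C²` on the closed half-space
`ℝⁿ × [0, ∞)`, satisfies `-Δ u = u - 1` in the open half-space, vanishes on the boundary, and is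
nonnegative and bounded on each strip `ℝⁿ × [0, M]`, is `u(x', t) = 1 - cos t`. -/
theorem result (n : ℕ) (u : EuclideanSpace ℝ (Fin n) × ℝ → ℝ)
    (hu : ContDiffOn ℝ 2 u {p | 0 ≤ p.2})
    (heq : ∀ (x : EuclideanSpace ℝ (Fin n)) (t : ℝ), 0 < t →
      -((∑ i, deriv (deriv fun s : ℝ => u (x + s • EuclideanSpace.single i (1 : ℝ), t)) 0) +
        deriv (deriv fun s => u (x, s)) t) = u (x, t) - 1)
    (h0 : ∀ x, u (x, 0) = 0)
    (hH : ∀ M : ℝ, 0 < M → ∃ C : ℝ, ∀ x, ∀ t ∈ Icc 0 M, 0 ≤ u (x, t) ∧ u (x, t) ≤ C)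
    (x : EuclideanSpace ℝ (Fin n)) (t : ℝ) (ht : 0 ≤ t) : u (x, t) = 1 - Real.cos t :=
  main (green Pool.Agent.X200.HS.REG.t ibp Pool.Agent.X28.HS.INT.t_INT
      Pool.Agent.X28.HS.INT.t_CON Pool.Agent.X59.HS.ode Pool.Agent.X4.HS.t)
    Pool.Agent.X172.HS.BD.t Pool.Agent.X262.HS.t
    (lim_of Pool.Agent.X235.HS.t_LIM1 Pool.Agent.X31.HS.LIM2.t Pool.Agent.X186.HS.t_LAPG Pool.Agent.X48.HS.t_CUT
      Pool.Agent.X4.HS.t Pool.Agent.X172.HS.BD.t)
    Pool.Agent.X193.HS.t_EXPN Pool.Agent.X283.HS.t_DEC Pool.Agent.X274.HS.t_UNI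
    Pool.Agent.X327.HS.ZA.t Pool.Agent.X211.HSZ.t_ZV n u hu heq h0 hH x t ht

end Pool.Agent.Results.MP_e4c1d4_an.HalfSpaceUniqueness
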